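import Pool.Agent.H79.EQD.Defs3

/-!
# Invariance of the tree polynomial (MP_f18ce0_lc, board vgr, row INV)
-/

set_option autoImplicit false

namespace Pool.EQD

open MvPolynomial Pool.Agent.H80

universe u v w

namespace Inv

theorem swap2 {α : Type*} [AddCommMonoid α] {L : Type*} [Fintype L] (F : L → L → L → α) :
    ∑ j, ∑ k, ∑ a, F j k a = ∑ a, ∑ j, ∑ k, F j k a := by
  calc ∑ j, ∑ k, ∑ a, F j k a = ∑ j, ∑ a, ∑ k, F j k a :=
        Finset.sum_congr rfl fun j _ => Finset.sum_comm
    _ = ∑ a, ∑ j, ∑ k, F j k a := Finset.sum_comm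

variable {K : Type u} [Field K] {L : Type} [Fintype L] [DecidableEq L]

theorem inv_contract (g : Matrix L L K) (hg : IsUnit g.det) (P : L → MvPolynomial (TVar L) K)
    (b : L) : ∑ j, C (g⁻¹ b j) * ∑ p, C (g j p) * P p = P b := by
  calc ∑ j, C (g⁻¹ b j) * ∑ p, C (g j p) * P p = ∑ p, C ((g⁻¹ * g) b p) * P p := by
        simp only [Matrix.mul_apply, map_sum, map_mul, Finset.mul_sum, Finset.sum_mul]
        rw [Finset.sum_comm]
        refine Finset.sum_congr rfl fun p _ => Finset.sum_congr rfl fun j _ => ?_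
        ring
    _ = P b := by
        rw [Matrix.nonsing_inv_mul g hg]
        simp [Matrix.one_apply]

theorem symHom_inl (g : Matrix L L K) (i : L) :
    symHom g (X (Sum.inl i)) = ∑ a : L, C (g i a) * X (Sum.inl a) := by
  simp only [symHom, aeval_X]

theorem symHom_inr (g : Matrix L L K) (i j k : L) :
    symHom g (X (Sum.inr (i, j, k))) = ∑ a : L, ∑ b : L, ∑ c : L,
        C (g i a * g⁻¹ b j * g⁻¹ c k) * X (Sum.inr (a, b, c)) := by
  simp only [symHom, aeval_X]

theorem symHom_tp (g : Matrix L L K) (hg : IsUnit g.det) (m : ℕ) (i : L) :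
    symHom g (tp K L m i) = ∑ a, C (g i a) * tp K L m a := by
  induction m using Nat.strong_induction_on generalizing i with
  | _ m ih =>
    match m, ih with
    | 0, _ => simp [tp]
    | 1, _ =>
      simp only [show ∀ i, tp K L 1 i = X (Sum.inl i) from fun i => by simp [tp]]
      exact symHom_inl g i
    | (m + 2), ih =>
      obtain ⟨V, hV⟩ : ∃ V : L → L → MvPolynomial (TVar L) K, ∀ j k, V j k =
          ∑ s : Fin (m + 1), (∑ p, C (g j p) * tp K L (s.1 + 1) p) *
            (∑ q, C (g k q) * tp K L (m + 1 - s.1) q) := ⟨fun j k => _, fun _ _ => rfl⟩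
      have hU : ∀ (j k : L), symHom g (∑ s : Fin (m + 1), tp K L (s.1 + 1) j *
          tp K L (m + 1 - s.1) k) = V j k := by
        intro j k
        rw [map_sum, hV]
        refine Finset.sum_congr rfl fun s _ => ?_
        rw [map_mul, ih (s.1 + 1) (by have := s.2; omega), ih (m + 1 - s.1) (by omega)]
      have hR : ∀ b c : L, ∑ s : Fin (m + 1), tp K L (s.1 + 1) b * tp K L (m + 1 - s.1) c =
          ∑ j, ∑ k, C (g⁻¹ b j) * C (g⁻¹ c k) * V j k := by
        intro b c
        calc ∑ s : Fin (m + 1), tp K L (s.1 + 1) b * tp K L (m + 1 - s.1) c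
            = ∑ s : Fin (m + 1), (∑ j, C (g⁻¹ b j) * ∑ p, C (g j p) * tp K L (s.1 + 1) p) *
              (∑ k, C (g⁻¹ c k) * ∑ q, C (g k q) * tp K L (m + 1 - s.1) q) := by
              refine Finset.sum_congr rfl fun s _ => ?_
              rw [inv_contract g hg, inv_contract g hg]
          _ = _ := by
              simp only [Finset.sum_mul_sum]
              rw [Finset.sum_comm]
              refine Finset.sum_congr rfl fun j _ => ?_
              rw [Finset.sum_comm]
              refine Finset.sum_congr rfl fun k _ => ?_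
              rw [hV, Finset.mul_sum]
              refine Finset.sum_congr rfl fun s _ => ?_
              ring
      have hL : symHom g (tp K L (m + 2) i) = ∑ j, ∑ k,
          (∑ a, ∑ b, ∑ c, C (g i a * g⁻¹ b j * g⁻¹ c k) * X (Sum.inr (a, b, c))) * V j k := by
        rw [tp, map_sum]
        refine Finset.sum_congr rfl fun j _ => ?_
        rw [map_sum]
        refine Finset.sum_congr rfl fun k _ => ?_
        rw [map_mul, hU, symHom_inr]
      have hRR : ∀ a, tp K L (m + 2) a = ∑ b, ∑ c, X (Sum.inr (a, b, c)) *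
          ∑ j, ∑ k, C (g⁻¹ b j) * C (g⁻¹ c k) * V j k := by
        intro a
        rw [tp]
        refine Finset.sum_congr rfl fun b _ => Finset.sum_congr rfl fun c _ => ?_
        rw [hR]
      rw [hL]
      simp only [hRR]
      calc ∑ j, ∑ k, (∑ a, ∑ b, ∑ c, C (g i a * g⁻¹ b j * g⁻¹ c k) * X (Sum.inr (a, b, c))) *
            V j k
          = ∑ j, ∑ k, ∑ a, ∑ b, ∑ c, C (g i a) * (X (Sum.inr (a, b, c)) *
            (C (g⁻¹ b j) * C (g⁻¹ c k) * V j k)) := by
            refine Finset.sum_congr rfl fun j _ => Finset.sum_congr rfl fun k _ => ?_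
            simp only [Finset.sum_mul]
            refine Finset.sum_congr rfl fun a _ => Finset.sum_congr rfl fun b _ =>
              Finset.sum_congr rfl fun c _ => ?_
            rw [map_mul, map_mul]
            ring
        _ = ∑ a, ∑ j, ∑ k, ∑ b, ∑ c, C (g i a) * (X (Sum.inr (a, b, c)) *
            (C (g⁻¹ b j) * C (g⁻¹ c k) * V j k)) := swap2 _
        _ = ∑ a, ∑ b, ∑ j, ∑ k, ∑ c, C (g i a) * (X (Sum.inr (a, b, c)) *
            (C (g⁻¹ b j) * C (g⁻¹ c k) * V j k)) :=
            Finset.sum_congr rfl fun a _ => swap2 _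
        _ = ∑ a, ∑ b, ∑ c, ∑ j, ∑ k, C (g i a) * (X (Sum.inr (a, b, c)) *
            (C (g⁻¹ b j) * C (g⁻¹ c k) * V j k)) :=
            Finset.sum_congr rfl fun a _ => Finset.sum_congr rfl fun b _ => swap2 _
        _ = _ := by
            simp only [Finset.mul_sum]

end Inv

/-- INV: the coordinate `r` of the solution is invariant. -/
theorem t_inv : INVStmt.{u} := by
  intro K _ L _ _ r g N hg hr
  rw [Agent.H80.tsum, map_sum]
  refine Finset.sum_congr rfl fun m _ => ?_
  rw [Inv.symHom_tp g hg]
  simp [hr _]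

end Pool.EQD
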