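import Pool.Agent.H79.EQD.Defs

/-!
# Stacks of pending subtrees (MP_f18ce0_lc, board vgr, row STK)

States are lists (top first) of pairs (label, number of leaves) of trees which are still to be
generated; the smaller child of a node is always put on top.
-/

set_option autoImplicit false

namespace Pool.EQD.Stk

open MvPolynomial Pool.Agent.H80

universe u v w

/-- States. -/
abbrev State (L : Type) : Type := List (L × ℕ)

/-- The condition on the sizes of a state (top first). -/
def GoodL : List ℕ → Prop
  | [] => True
  | [m] => 1 ≤ m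
  | m₁ :: m₂ :: [] => 1 ≤ m₁ ∧ m₁ ≤ m₂
  | m₁ :: m₂ :: m₃ :: l => 1 ≤ m₁ ∧ m₁ ≤ m₂ ∧ m₁ + m₂ ≤ m₃ ∧ GoodL (m₂ :: m₃ :: l)

/-- Good states: all sizes are between `1` and `N`, and at least the sum of the two sizes above. -/
def Good {L : Type} (N : ℕ) (s : State L) : Prop :=
  GoodL (s.map Prod.snd) ∧ ∀ p ∈ s, p.2 ≤ N

/-- The polynomial of a state. -/
noncomputable def Y (K : Type u) [CommSemiring K] {L : Type} [Fintype L] (s : State L) :
    MvPolynomial (TVar L) K := (s.map fun p => tp K L p.2 p.1).prod

/-- The number of steps. -/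
def mu {L : Type} (s : State L) : ℕ := (s.map fun p => 2 * p.2 - 1).sum

/-- The weight of a state. -/
def W {L : Type} {G : Type v} [AddCommGroup G] (u : L → G) (s : State L) : G :=
  (s.map fun p => u p.1).sum

/-- The pair of children, the smaller one on top. -/
def tgt {L : Type} (j k : L) (a b : ℕ) (s : State L) : State L :=
  if a ≤ b then (j, a) :: (k, b) :: s else (k, b) :: (j, a) :: s

/-- The transitions. -/
noncomputable def step {L : Type} [Fintype L] : State L → List (TVar L × State L)
  | [] => []
  | (_, 0) :: _ => []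
  | (i, 1) :: s => [(Sum.inl i, s)]
  | (i, (m + 2)) :: s =>
    (Finset.univ : Finset (L × L × Fin (m + 1))).toList.map fun x =>
      (Sum.inr (i, x.1, x.2.1), tgt x.1 x.2.1 (x.2.2.1 + 1) (m + 1 - x.2.2.1) s)

theorem GoodL.pos {l : List ℕ} (h : GoodL l) : ∀ m ∈ l, 1 ≤ m := by
  induction l with
  | nil => simp
  | cons m₁ l ih =>
    match l, h, ih with
    | [], h, _ => simpa [GoodL] using h
    | [m₂], h, _ =>
      simp only [GoodL] at h
      intro m hm
      simp only [List.mem_cons, List.not_mem_nil, or_false] at hm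
      rcases hm with rfl | rfl <;> omega
    | m₂ :: m₃ :: l, h, ih =>
      simp only [GoodL] at h
      intro m hm
      rcases List.mem_cons.1 hm with rfl | hm
      · exact h.1
      · exact ih h.2.2.2 m hm

theorem GoodL.tail {m : ℕ} {l : List ℕ} (h : GoodL (m :: l)) : GoodL l := by
  match l, h with
  | [], _ => trivial
  | [m₂], h =>
    simp only [GoodL] at h ⊢
    omega
  | m₂ :: m₃ :: l, h =>
    simp only [GoodL] at h
    exact h.2.2.2

theorem GoodL.two {a b : ℕ} {l : List ℕ} (ha : 1 ≤ a) (hab : a ≤ b) (h : GoodL ((a + b) :: l)) :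
    GoodL (a :: b :: l) := by
  match l, h with
  | [], _ => exact ⟨ha, hab⟩
  | [m₂], h =>
    simp only [GoodL] at h ⊢
    omega
  | m₂ :: m₃ :: l, h =>
    simp only [GoodL] at h ⊢
    refine ⟨ha, hab, h.2.1, by omega, by omega, by omega, h.2.2.2⟩

theorem good_nil {L : Type} (N : ℕ) : Good N ([] : State L) := ⟨trivial, by simp⟩

theorem good_single {L : Type} {N m : ℕ} (i : L) (h1 : 1 ≤ m) (h2 : m ≤ N) :
    Good N [(i, m)] := ⟨h1, by simpa using h2⟩

theorem Good.tail {L : Type} {N : ℕ} {p : L × ℕ} {s : State L} (h : Good N (p :: s)) :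
    Good N s := ⟨GoodL.tail (m := p.2) h.1, fun q hq => h.2 q (List.mem_cons_of_mem _ hq)⟩

theorem Good.pos {L : Type} {N : ℕ} {s : State L} (h : Good N s) : ∀ p ∈ s, 1 ≤ p.2 :=
  fun p hp => h.1.pos p.2 (List.mem_map_of_mem hp)

theorem good_tgt {L : Type} {N : ℕ} {i j k : L} {a b : ℕ} {s : State L} (ha : 1 ≤ a) (hb : 1 ≤ b)
    (h : Good N ((i, a + b) :: s)) : Good N (tgt j k a b s) := by
  have hN : a + b ≤ N := h.2 (i, a + b) (List.mem_cons_self ..)
  have h1 : GoodL ((a + b) :: s.map Prod.snd) := h.1
  rw [tgt]
  split_ifs with hab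
  · refine ⟨GoodL.two ha hab h1, ?_⟩
    intro p hp
    simp only [List.mem_cons] at hp
    rcases hp with rfl | rfl | hp
    · simp only; omega
    · simp only; omega
    · exact h.tail.2 p hp
  · refine ⟨GoodL.two hb (by omega) (by rwa [add_comm]), ?_⟩
    intro p hp
    simp only [List.mem_cons] at hp
    rcases hp with rfl | rfl | hp
    · simp only; omega
    · simp only; omega
    · exact h.tail.2 p hp

@[simp] theorem Y_nil (K : Type u) [CommSemiring K] {L : Type} [Fintype L] :
    Y K ([] : State L) = 1 := rfl

theorem Y_cons (K : Type u) [CommSemiring K] {L : Type} [Fintype L] (p : L × ℕ) (s : State L) :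
    Y K (p :: s) = tp K L p.2 p.1 * Y K s := by
  simp [Y]

theorem Y_single (K : Type u) [CommSemiring K] {L : Type} [Fintype L] (i : L) (m : ℕ) :
    Y K [(i, m)] = tp K L m i := by
  simp [Y]

theorem Y_tgt (K : Type u) [CommSemiring K] {L : Type} [Fintype L] (j k : L) (a b : ℕ)
    (s : State L) : Y K (tgt j k a b s) = tp K L a j * tp K L b k * Y K s := by
  rw [tgt]
  split_ifs
  · rw [Y_cons, Y_cons, mul_assoc]
  · rw [Y_cons, Y_cons]
    ring

theorem mu_tgt {L : Type} (j k : L) (a b : ℕ) (s : State L) :
    mu (tgt j k a b s) = (2 * a - 1) + (2 * b - 1) + mu s := by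
  rw [tgt]
  split_ifs
  · simp only [mu, List.map_cons, List.sum_cons]; omega
  · simp only [mu, List.map_cons, List.sum_cons]; omega

theorem W_tgt {L : Type} {G : Type v} [AddCommGroup G] (u : L → G) (j k : L) (a b : ℕ)
    (s : State L) : W u (tgt j k a b s) = u j + u k + W u s := by
  rw [tgt]
  split_ifs
  · simp only [W, List.map_cons, List.sum_cons]; abel
  · simp only [W, List.map_cons, List.sum_cons]; abel

theorem step_cons_two {L : Type} [Fintype L] (i : L) (m : ℕ) (s : State L) :
    step ((i, m + 2) :: s) = (Finset.univ : Finset (L × L × Fin (m + 1))).toList.map fun x =>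
      ((Sum.inr (i, x.1, x.2.1) : TVar L),
        tgt x.1 x.2.1 (x.2.2.1 + 1) (m + 1 - x.2.2.1) s) := by
  simp only [step]

theorem step_cons_one {L : Type} [Fintype L] (i : L) (s : State L) :
    step ((i, 1) :: s) = [((Sum.inl i : TVar L), s)] := by
  simp only [step]

theorem Y_step (K : Type u) [CommSemiring K] {L : Type} [Fintype L] {N : ℕ} {s : State L}
    (h : Good N s) (h0 : s ≠ []) :
    Y K s = ((step s).map fun p => X p.1 * Y K p.2).sum := by
  match s, h, h0 with
  | (i, 0) :: s, h, _ => exact absurd (h.pos (i, 0) (List.mem_cons_self ..)) (by simp)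
  | (i, 1) :: s, h, _ => simp [step_cons_one, Y_cons, tp]
  | (i, (m + 2)) :: s, h, _ =>
    rw [step_cons_two, List.map_map, Finset.sum_map_toList, Y_cons, Fintype.sum_prod_type, tp,
      Finset.sum_mul]
    refine Finset.sum_congr rfl fun j _ => ?_
    rw [Fintype.sum_prod_type, Finset.sum_mul]
    refine Finset.sum_congr rfl fun k _ => ?_
    rw [mul_assoc, Finset.sum_mul, Finset.mul_sum]
    refine Finset.sum_congr rfl fun a _ => ?_
    simp only [Function.comp_apply, Y_tgt]

theorem step_good {L : Type} [Fintype L] {N : ℕ} {s : State L} (h : Good N s)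
    {p : TVar L × State L} (hp : p ∈ step s) : Good N p.2 := by
  match s, h, hp with
  | [], h, hp => simp [step] at hp
  | (i, 0) :: s, h, hp => simp [step] at hp
  | (i, 1) :: s, h, hp =>
    rw [step_cons_one, List.mem_singleton] at hp
    rw [hp]
    exact h.tail
  | (i, (m + 2)) :: s, h, hp =>
    rw [step_cons_two, List.mem_map] at hp
    obtain ⟨x, _, rfl⟩ := hp
    have := x.2.2.2
    refine good_tgt (i := i) (by omega) (by omega) ?_
    rw [show x.2.2.1 + 1 + (m + 1 - x.2.2.1) = m + 2 by omega]
    exact h

theorem step_mu {L : Type} [Fintype L] {N : ℕ} {s : State L} (h : Good N s)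
    {p : TVar L × State L} (hp : p ∈ step s) : mu p.2 + 1 = mu s := by
  match s, h, hp with
  | [], h, hp => simp [step] at hp
  | (i, 0) :: s, h, hp => simp [step] at hp
  | (i, 1) :: s, h, hp =>
    rw [step_cons_one, List.mem_singleton] at hp
    rw [hp]
    simp [mu, add_comm]
  | (i, (m + 2)) :: s, h, hp =>
    rw [step_cons_two, List.mem_map] at hp
    obtain ⟨x, _, rfl⟩ := hp
    have := x.2.2.2
    simp only [mu_tgt]
    simp only [mu, List.map_cons, List.sum_cons]
    omega

theorem step_W {L : Type} [Fintype L] {G : Type v} [AddCommGroup G] (u : L → G) {N : ℕ}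
    {s : State L} (h : Good N s) {p : TVar L × State L} (hp : p ∈ step s) :
    tw u p.1 + W u p.2 = W u s := by
  match s, h, hp with
  | [], h, hp => simp [step] at hp
  | (i, 0) :: s, h, hp => simp [step] at hp
  | (i, 1) :: s, h, hp =>
    rw [step_cons_one, List.mem_singleton] at hp
    rw [hp]
    simp [W, tw]
  | (i, (m + 2)) :: s, h, hp =>
    rw [step_cons_two, List.mem_map] at hp
    obtain ⟨x, _, rfl⟩ := hp
    simp only [W_tgt, tw]
    simp only [W, List.map_cons, List.sum_cons]
    abel

theorem step_length {L : Type} [Fintype L] {N : ℕ} {s : State L} (h : Good N s) :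
    (step s).length ≤ max 1 (Fintype.card L ^ 2 * N) := by
  match s, h with
  | [], h => simp [step]
  | (i, 0) :: s, h => simp [step]
  | (i, 1) :: s, h => simp [step]
  | (i, (m + 2)) :: s, h =>
    have hm : m + 2 ≤ N := h.2 (i, m + 2) (List.mem_cons_self ..)
    rw [step_cons_two, List.length_map, Finset.length_toList, Finset.card_univ,
      Fintype.card_prod, Fintype.card_prod, Fintype.card_fin, ← mul_assoc, ← sq]
    exact le_max_of_le_right (Nat.mul_le_mul_left _ (by omega))

/-- The trees with root label `i` are homogeneous of weight `u i`. -/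
theorem tp_hom (K : Type u) [CommSemiring K] {L : Type} [Fintype L] {G : Type v}
    [AddCommGroup G] (u : L → G) (m : ℕ) (i : L) :
    IsWeightedHomogeneous (tw u) (tp K L m i) (u i) := by
  induction m using Nat.strong_induction_on generalizing i with
  | _ m ih =>
    match m, ih with
    | 0, _ =>
      rw [show tp K L 0 i = 0 by simp [tp]]
      exact isWeightedHomogeneous_zero K (tw u) (u i)
    | 1, _ =>
      rw [show tp K L 1 i = X (Sum.inl i) by simp [tp]]
      exact isWeightedHomogeneous_X K (tw u) (Sum.inl i)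
    | (m + 2), ih =>
      rw [tp]
      refine IsWeightedHomogeneous.sum _ _ _ fun j _ =>
        IsWeightedHomogeneous.sum _ _ _ fun k _ => ?_
      have h1 := isWeightedHomogeneous_X K (tw u) (Sum.inr (i, j, k))
      have h2 : IsWeightedHomogeneous (tw u)
          (∑ a : Fin (m + 1), tp K L (a.1 + 1) j * tp K L (m + 1 - a.1) k) (u j + u k) := by
        refine IsWeightedHomogeneous.sum _ _ _ fun a _ => ?_
        exact (ih (a.1 + 1) (by have := a.2; omega) j).mul (ih (m + 1 - a.1) (by omega) k)
      have h3 := h1.mul h2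
      have h4 : tw u (Sum.inr (i, j, k)) + (u j + u k) = u i := by
        simp only [tw]; abel
      rwa [h4] at h3

theorem Y_hom (K : Type u) [CommSemiring K] {L : Type} [Fintype L] {G : Type v}
    [AddCommGroup G] (u : L → G) (s : State L) :
    IsWeightedHomogeneous (tw u) (Y K s) (W u s) := by
  induction s with
  | nil => exact isWeightedHomogeneous_one K (tw u)
  | cons p s ih =>
    rw [Y_cons]
    have : W u (p :: s) = u p.1 + W u s := by simp [W]
    rw [this]
    exact (tp_hom K u p.2 p.1).mul ih

theorem tsum_eq (K : Type u) [CommSemiring K] (L : Type) [Fintype L] (N : ℕ) (r : L) :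
    Agent.H80.tsum K L N r = ∑ m ∈ Finset.Icc 1 N, Y K [(r, m)] := by
  rw [Agent.H80.tsum, Finset.sum_range_succ']
  simp only [Y_single]
  rw [show tp K L 0 r = 0 by simp [tp], add_zero]
  refine Finset.sum_bij (fun m _ => m + 1) (fun m hm => ?_) (fun a _ b _ h => by omega)
    (fun m hm => ⟨m - 1, ?_, ?_⟩) (fun m _ => rfl)
  · rw [Finset.mem_range] at hm
    rw [Finset.mem_Icc]
    omega
  · rw [Finset.mem_Icc] at hm
    rw [Finset.mem_range]
    omega
  · rw [Finset.mem_Icc] at hm
    omega

/-! ### Counting -/

theorem GoodL.length_le {l : List ℕ} (h : GoodL l) (N : ℕ) (hN : ∀ m ∈ l, m ≤ N) (t : ℕ)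
    (ht : 2 * t + 1 ≤ l.length) : ∃ m ∈ l, ∀ m₁, l.head? = some m₁ → m₁ * 2 ^ t ≤ m := by
  induction t generalizing l with
  | zero =>
    match l, ht with
    | m₁ :: l, _ =>
      refine ⟨m₁, List.mem_cons_self .., ?_⟩
      intro m₂ h2
      simp only [List.head?_cons, Option.some.injEq] at h2
      simp [h2]
  | succ t ih =>
    match l, h, hN, ht with
    | m₁ :: m₂ :: m₃ :: l, h, hN, ht =>
      simp only [GoodL] at h
      obtain ⟨m, hm, hm2⟩ := ih (l := m₃ :: l) (h.2.2.2.tail)
        (fun m hm => hN m (by simp only [List.mem_cons] at hm ⊢; tauto))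
        (by simp only [List.length_cons] at ht ⊢; omega)
      refine ⟨m, by simp only [List.mem_cons] at hm ⊢; tauto, ?_⟩
      intro m' hm'
      simp only [List.head?_cons, Option.some.injEq] at hm'
      subst hm'
      have := hm2 m₃ rfl
      calc m₁ * 2 ^ (t + 1) = (m₁ * 2) * 2 ^ t := by ring
        _ ≤ m₃ * 2 ^ t := Nat.mul_le_mul_right _ (by omega)
        _ ≤ m := this

theorem Good.length_le {L : Type} {N : ℕ} {s : State L} (h : Good N s) :
    s.length ≤ 2 * Nat.log 2 N + 2 := by
  by_contra hc
  push Not at hc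
  have hl : 2 * (Nat.log 2 N + 1) + 1 ≤ (s.map Prod.snd).length := by
    rw [List.length_map]; omega
  have hN : ∀ m ∈ s.map Prod.snd, m ≤ N := by
    intro m hm
    obtain ⟨p, hp, rfl⟩ := List.mem_map.1 hm
    exact h.2 p hp
  obtain ⟨m, hm, hm2⟩ := h.1.length_le N hN _ hl
  cases hs : s.map Prod.snd with
  | nil => rw [hs] at hm; simp at hm
  | cons m₁ l =>
    rw [hs] at hm2
    have h1 := hm2 m₁ rfl
    have h2 : 1 ≤ m₁ := h.1.pos m₁ (by rw [hs]; exact List.mem_cons_self ..)
    have h3 := hN m hm
    have h4 : N < 2 ^ (Nat.log 2 N + 1) := Nat.lt_pow_succ_log_self (by norm_num) N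
    have h5 : 2 ^ (Nat.log 2 N + 1) ≤ m₁ * 2 ^ (Nat.log 2 N + 1) :=
      Nat.le_mul_of_pos_left _ h2
    omega

/-- Coding of a state. -/
def code {L : Type} (N : ℕ) (s : State L) (j : Fin (2 * Nat.log 2 N + 2)) :
    Option (L × Fin N) :=
  match s[j.1]? with
  | none => none
  | some p => if h : p.2 - 1 < N then some (p.1, ⟨p.2 - 1, h⟩) else none

theorem code_inj {L : Type} {N : ℕ} {s s' : State L} (h : Good N s) (h' : Good N s')
    (hc : code N s = code N s') : s = s' := by
  refine List.ext_getElem? fun j => ?_
  by_cases hj : j < 2 * Nat.log 2 N + 2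
  · have h1 := congrFun hc ⟨j, hj⟩
    simp only [code] at h1
    have key : ∀ t : State L, Good N t → ∀ p : L × ℕ, t[j]? = some p → 1 ≤ p.2 ∧ p.2 ≤ N := by
      intro t ht p hp
      have hm : p ∈ t := List.mem_of_getElem? hp
      exact ⟨ht.pos p hm, ht.2 p hm⟩
    cases e : s[j]? with
    | none =>
      cases e' : s'[j]? with
      | none => rfl
      | some p' =>
        have := key s' h' p' e'
        rw [e, e'] at h1
        simp only at h1
        rw [dif_pos (by omega)] at h1
        simp at h1
    | some p =>
      have hp := key s h p e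
      cases e' : s'[j]? with
      | none =>
        rw [e, e'] at h1
        simp only at h1
        rw [dif_pos (by omega)] at h1
        simp at h1
      | some p' =>
        have hp' := key s' h' p' e'
        rw [e, e'] at h1
        simp only at h1
        rw [dif_pos (by omega), dif_pos (by omega)] at h1
        simp only [Option.some.injEq, Prod.mk.injEq, Fin.mk.injEq] at h1
        congr 1
        exact Prod.ext h1.1 (by omega)
  · rw [List.getElem?_eq_none (by have := h.length_le; omega),
      List.getElem?_eq_none (by have := h'.length_le; omega)]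

theorem finite_good (L : Type) [Fintype L] (N : ℕ) : {s : State L | Good N s}.Finite :=
  Set.Finite.of_finite_image (f := code N) (Set.toFinite _)
    (fun _ hs _ hs' hc => code_inj hs hs' hc)

/-- The set of good states. -/
noncomputable def goodSet (L : Type) [Fintype L] (N : ℕ) : Finset (State L) :=
  (finite_good L N).toFinset

theorem mem_goodSet {L : Type} [Fintype L] {N : ℕ} {s : State L} :
    s ∈ goodSet L N ↔ Good N s := by
  simp [goodSet]

theorem card_goodSet (L : Type) [Fintype L] (N : ℕ) :
    (goodSet L N).card ≤ (Fintype.card L * N + 1) ^ (2 * Nat.log 2 N + 2) := by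
  classical
  calc (goodSet L N).card
      ≤ (Finset.univ : Finset (Fin (2 * Nat.log 2 N + 2) → Option (L × Fin N))).card := by
        refine Finset.card_le_card_of_injOn (code N) (fun _ _ => Finset.mem_coe.2
          (Finset.mem_univ _)) ?_
        intro s hs s' hs' hc
        exact code_inj (mem_goodSet.1 hs) (mem_goodSet.1 hs') hc
    _ = (Fintype.card L * N + 1) ^ (2 * Nat.log 2 N + 2) := by
        rw [Finset.card_univ, Fintype.card_fun, Fintype.card_option, Fintype.card_prod,
          Fintype.card_fin, Fintype.card_fin]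

/-! ### The transition matrix -/

open Classical in
/-- The transition matrix. -/
noncomputable def B (K : Type u) [CommSemiring K] {L : Type} [Fintype L] (s t : State L) :
    MvPolynomial (TVar L) K :=
  ((step s).map fun p => if p.2 = t then X p.1 else 0).sum

theorem sum_B (K : Type u) [CommSemiring K] {L : Type} [Fintype L] {N : ℕ} {s : State L}
    (h : Good N s) (h0 : s ≠ []) : ∑ t ∈ goodSet L N, B K s t * Y K t = Y K s := by
  classical
  rw [Y_step K h h0]
  have hg : ∀ p ∈ step s, p.2 ∈ goodSet L N := fun p hp => mem_goodSet.2 (step_good h hp)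
  simp only [B]
  generalize step s = l at hg ⊢
  induction l with
  | nil => simp
  | cons p l ih =>
    simp only [List.map_cons, List.sum_cons, add_mul, Finset.sum_add_distrib]
    rw [ih fun q hq => hg q (List.mem_cons_of_mem _ hq)]
    congr 1
    simp only [ite_mul, zero_mul]
    rw [Finset.sum_ite_eq, if_pos (hg p (List.mem_cons_self ..))]

theorem exists_step_of_B_ne_zero {K : Type u} [CommSemiring K] {L : Type} [Fintype L]
    {s t : State L} (h : B K s t ≠ 0) : ∃ p ∈ step s, p.2 = t := by
  classical
  by_contra hc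
  push Not at hc
  refine h ?_
  rw [B]
  refine List.sum_eq_zero fun x hx => ?_
  obtain ⟨p, hp, rfl⟩ := List.mem_map.1 hx
  simp [hc p hp]

theorem B_mu {K : Type u} [CommSemiring K] {L : Type} [Fintype L] {N : ℕ} {s t : State L}
    (hs : Good N s) (h : B K s t ≠ 0) : mu t + 1 = mu s := by
  obtain ⟨p, hp, rfl⟩ := exists_step_of_B_ne_zero h
  exact step_mu hs hp

theorem B_nil (K : Type u) [CommSemiring K] {L : Type} [Fintype L] (t : State L) :
    B K [] t = 0 := by
  simp [B, step]

theorem totalDegree_B (K : Type u) [CommSemiring K] {L : Type} [Fintype L] (s t : State L) :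
    (B K s t).totalDegree ≤ 1 := by
  classical
  rw [B]
  generalize step s = l
  induction l with
  | nil => simp
  | cons p l ih =>
    simp only [List.map_cons, List.sum_cons]
    refine (totalDegree_add _ _).trans (max_le ?_ ih)
    split_ifs
    · rcases subsingleton_or_nontrivial K with hK | hK
      · have := Subsingleton.elim (X p.1 : MvPolynomial (TVar L) K) 0
        rw [this]
        simp
      · rw [totalDegree_X]
    · simp

theorem B_hom (K : Type u) [CommSemiring K] {L : Type} [Fintype L] {G : Type v}
    [AddCommGroup G] (u : L → G) {N : ℕ} {s : State L} (h : Good N s) (t : State L) :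
    IsWeightedHomogeneous (tw u) (B K s t) (W u s - W u t) := by
  classical
  rw [B]
  have hg : ∀ p ∈ step s, tw u p.1 + W u p.2 = W u s := fun p hp => step_W u h hp
  generalize step s = l at hg ⊢
  induction l with
  | nil => exact isWeightedHomogeneous_zero K _ _
  | cons p l ih =>
    simp only [List.map_cons, List.sum_cons]
    refine IsWeightedHomogeneous.add ?_ (ih fun q hq => hg q (List.mem_cons_of_mem _ hq))
    split_ifs with hp
    · have h1 := isWeightedHomogeneous_X K (tw u) p.1
      have h2 : tw u p.1 = W u s - W u t := by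
        rw [← hg p (List.mem_cons_self ..), hp]; abel
      rwa [h2] at h1
    · exact isWeightedHomogeneous_zero K _ _

end Pool.EQD.Stk
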