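import Pool.Agent.H58.EQD.Stk
import Pool.Agent.H79.EQD.Defs2
import Pool.Agent.H79.EQD.Lsh

/-!
# Homogeneous weakly skew circuits of quasipolynomial size (MP_f18ce0_lc, board vgr, row HUB)
-/

set_option autoImplicit false

namespace Pool.EQD

open MvPolynomial Pool.Agent.H80

universe u v w

namespace Hub

section prog

variable {K : Type u} [CommSemiring K] {σ : Type} {G : Type v} [AddCommMonoid G] (w : σ → G)

/-- A homogeneous skew program. -/
def HP (l : List (MvPolynomial σ K)) : Prop := LSLP l ∧ ∀ q ∈ l, Hom w q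

theorem one_mem_of_lslp {l : List (MvPolynomial σ K)} (h : LSLP l) : (1 : MvPolynomial σ K) ∈ l := by
  induction h with
  | one => simp
  | cons _ _ ih => exact List.mem_cons_of_mem _ ih

theorem HP.one : HP w ([1] : List (MvPolynomial σ K)) :=
  ⟨LSLP.one, by
    intro q hq
    rw [List.mem_singleton] at hq
    rw [hq]
    exact ⟨0, isWeightedHomogeneous_one K w⟩⟩

variable {w}

theorem HP.step {l : List (MvPolynomial σ K)} (h : HP w l) {p : MvPolynomial σ K}
    (hp : LStep l p) (hm : Hom w p) : HP w (p :: l) :=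
  ⟨LSLP.cons h.1 hp, by
    intro q hq
    rcases List.mem_cons.1 hq with rfl | hq
    · exact hm
    · exact h.2 q hq⟩

theorem HP.addZero {l : List (MvPolynomial σ K)} (h : HP w l) :
    HP w ((0 : MvPolynomial σ K) :: l) := by
  refine h.step ?_ ⟨0, isWeightedHomogeneous_zero K w 0⟩
  have := LStep.mulConst (one_mem_of_lslp h.1) (0 : K)
  simpa using this

/-- Sums of products of earlier lines with variables. -/
theorem HP.addSum {l : List (MvPolynomial σ K)} (h : HP w l) (m : G)
    (ps : List (σ × MvPolynomial σ K)) (hps : ∀ p ∈ ps, p.2 ∈ l)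
    (hm : ∀ p ∈ ps, IsWeightedHomogeneous w (X p.1 * p.2) m) :
    ∃ l' : List (MvPolynomial σ K), HP w l' ∧ l ⊆ l' ∧ l'.length ≤ l.length + (2 * ps.length + 1) ∧
      (ps.map fun p => X p.1 * p.2).sum ∈ l' := by
  suffices hs : ∃ l' : List (MvPolynomial σ K), HP w l' ∧ l ⊆ l' ∧
      l'.length ≤ l.length + (2 * ps.length + 1) ∧
      (ps.map fun p => X p.1 * p.2).sum ∈ l' ∧
      IsWeightedHomogeneous w (ps.map fun p => X p.1 * p.2).sum m by
    obtain ⟨l', h1, h2, h3, h4, _⟩ := hs
    exact ⟨l', h1, h2, h3, h4⟩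
  induction ps with
  | nil =>
    refine ⟨0 :: l, h.addZero, fun _ hx => List.mem_cons_of_mem _ hx, by simp, by simp, ?_⟩
    exact isWeightedHomogeneous_zero K w m
  | cons p ps ih =>
    obtain ⟨l', h1, h2, h3, h4, h5⟩ := ih (fun q hq => hps q (List.mem_cons_of_mem _ hq))
      (fun q hq => hm q (List.mem_cons_of_mem _ hq))
    have hp := hps p (List.mem_cons_self ..)
    have hpm := hm p (List.mem_cons_self ..)
    have s1 : HP w ((X p.1 * p.2) :: l') := by
      refine h1.step ?_ ⟨m, hpm⟩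
      rw [mul_comm]
      exact LStep.mulVar (h2 hp) p.1
    have hsum : IsWeightedHomogeneous w (X p.1 * p.2 + (ps.map fun p => X p.1 * p.2).sum) m :=
      hpm.add h5
    refine ⟨(X p.1 * p.2 + (ps.map fun p => X p.1 * p.2).sum) :: (X p.1 * p.2) :: l',
      s1.step ?_ ⟨m, hsum⟩, ?_, ?_, ?_, ?_⟩
    · exact LStep.add (List.mem_cons_self ..) (List.mem_cons_of_mem _ h4)
    · exact fun x hx => List.mem_cons_of_mem _ (List.mem_cons_of_mem _ (h2 hx))
    · simp only [List.length_cons]; omega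
    · rw [List.map_cons, List.sum_cons]
      exact List.mem_cons_self ..
    · rw [List.map_cons, List.sum_cons]
      exact hsum

/-- Sums of earlier lines. -/
theorem HP.addAll {l : List (MvPolynomial σ K)} (h : HP w l) (m : G)
    {ι : Type*} (S : Finset ι) (f : ι → MvPolynomial σ K) (hps : ∀ i ∈ S, f i ∈ l)
    (hm : ∀ i ∈ S, IsWeightedHomogeneous w (f i) m) :
    ∃ l' : List (MvPolynomial σ K), HP w l' ∧ l ⊆ l' ∧ l'.length ≤ l.length + (S.card + 1) ∧
      ∑ i ∈ S, f i ∈ l' := by
  classical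
  induction S using Finset.induction_on with
  | empty =>
    exact ⟨0 :: l, h.addZero, fun _ hx => List.mem_cons_of_mem _ hx, by simp, by simp⟩
  | insert i S hi ih =>
    obtain ⟨l', h1, h2, h3, h4⟩ := ih (fun q hq => hps q (Finset.mem_insert_of_mem hq))
      (fun q hq => hm q (Finset.mem_insert_of_mem hq))
    have hsum : IsWeightedHomogeneous w (f i + ∑ i ∈ S, f i) m :=
      (hm i (Finset.mem_insert_self ..)).add
        (IsWeightedHomogeneous.sum _ _ _ fun j hj => hm j (Finset.mem_insert_of_mem hj))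
    refine ⟨(f i + ∑ i ∈ S, f i) :: l', h1.step ?_ ⟨m, hsum⟩, ?_, ?_, ?_⟩
    · exact LStep.add (h2 (hps i (Finset.mem_insert_self ..))) h4
    · exact fun x hx => List.mem_cons_of_mem _ (h2 hx)
    · rw [Finset.card_insert_of_notMem hi, List.length_cons]; omega
    · rw [Finset.sum_insert hi]
      exact List.mem_cons_self ..

end prog

theorem rename_hom {K : Type u} [CommSemiring K] {σ τ : Type} {G : Type v} [AddCommMonoid G]
    (e : σ → τ) (w : σ → G) (w' : τ → G) (hw : ∀ x, w' (e x) = w x) {p : MvPolynomial σ K}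
    {m : G} (hp : IsWeightedHomogeneous w p m) : IsWeightedHomogeneous w' (rename e p) m := by
  intro d hd
  obtain ⟨d', rfl, hd'⟩ := coeff_rename_ne_zero e p d hd
  have h1 : Finsupp.weight w' (Finsupp.mapDomain e d') = Finsupp.weight w d' := by
    rw [Finsupp.weight_apply, Finsupp.weight_apply,
      Finsupp.sum_mapDomain_index (h := fun i c => c • w' i) (fun _ => zero_smul _ _)
        (fun _ _ _ => add_smul _ _ _)]
    simp only [hw]
  rw [h1]
  exact hp hd'

section main

variable (K : Type u) [CommSemiring K] (n : ℕ) {G : Type v} [AddCommGroup G]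
  (u : Fin (n + 1) → G)

/-- The renamed polynomials of the states. -/
noncomputable def Z (s : Stk.State (Fin (n + 1))) : MvPolynomial (Fin (nvar n)) K :=
  rename (tvarEquiv (n + 1)) (Stk.Y K s)

theorem treeWeight_apply (x : TVar (Fin (n + 1))) :
    treeWeight u (tvarEquiv (n + 1) x) = tw u x := by
  simp only [treeWeight, Equiv.symm_apply_apply]

theorem Z_hom (s : Stk.State (Fin (n + 1))) :
    IsWeightedHomogeneous (treeWeight u) (Z K n s) (Stk.W u s) :=
  rename_hom (tvarEquiv (n + 1)) (tw u) (treeWeight u) (treeWeight_apply n u) (Stk.Y_hom K u s)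

theorem Z_step {N : ℕ} {s : Stk.State (Fin (n + 1))} (h : Stk.Good N s) (h0 : s ≠ []) :
    Z K n s = (((Stk.step s).map fun p => ((tvarEquiv (n + 1) p.1 : Fin (nvar n)), Z K n p.2)).map
      fun p => X p.1 * p.2).sum := by
  rw [Z, Stk.Y_step K h h0, map_list_sum, List.map_map, List.map_map]
  refine congrArg List.sum (List.map_congr_left fun p _ => ?_)
  simp only [Function.comp_apply, map_mul, rename_X]
  rfl

theorem mu_eq_zero {N : ℕ} {s : Stk.State (Fin (n + 1))} (h : Stk.Good N s)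
    (h0 : Stk.mu s = 0) : s = [] := by
  cases s with
  | nil => rfl
  | cons p s =>
    exfalso
    have := h.pos p (List.mem_cons_self ..)
    simp only [Stk.mu, List.map_cons, List.sum_cons] at h0
    omega

/-- The length of one step. -/
def cst (N : ℕ) : ℕ := 2 * max 1 ((n + 1) ^ 2 * N) + 1

theorem one_state {N : ℕ} {s : Stk.State (Fin (n + 1))} (h : Stk.Good N s) (h0 : s ≠ [])
    {l : List (MvPolynomial (Fin (nvar n)) K)} (hl : HP (treeWeight u) l)
    (hmem : ∀ t, Stk.Good N t → Stk.mu t + 1 = Stk.mu s → Z K n t ∈ l) :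
    ∃ l' : List (MvPolynomial (Fin (nvar n)) K), HP (treeWeight u) l' ∧ l ⊆ l' ∧
      l'.length ≤ l.length + cst n N ∧ Z K n s ∈ l' := by
  obtain ⟨l', h1, h2, h3, h4⟩ := hl.addSum (Stk.W u s)
    ((Stk.step s).map fun p => ((tvarEquiv (n + 1) p.1 : Fin (nvar n)), Z K n p.2)) (by
      intro q hq
      obtain ⟨p, hp, rfl⟩ := List.mem_map.1 hq
      exact hmem p.2 (Stk.step_good h hp) (Stk.step_mu h hp)) (by
      intro q hq
      obtain ⟨p, hp, rfl⟩ := List.mem_map.1 hq
      have := (isWeightedHomogeneous_X K (treeWeight u) (tvarEquiv (n + 1) p.1)).mul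
        (Z_hom K n u p.2)
      rw [treeWeight_apply, Stk.step_W u h hp] at this
      exact this)
  refine ⟨l', h1, h2, h3.trans ?_, ?_⟩
  · rw [List.length_map]
    have := Stk.step_length h
    rw [Fintype.card_fin] at this
    rw [cst]
    omega
  · rw [Z_step K n h h0]
    exact h4

open Classical in
theorem levels (N M : ℕ) : ∃ l : List (MvPolynomial (Fin (nvar n)) K), HP (treeWeight u) l ∧
    l.length ≤ 1 + cst n N * ((Stk.goodSet (Fin (n + 1)) N).filter (fun s => Stk.mu s ≤ M)).card ∧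
    ∀ s, Stk.Good N s → Stk.mu s ≤ M → Z K n s ∈ l := by
  induction M with
  | zero =>
    refine ⟨[1], HP.one _, by simp, ?_⟩
    intro s hs h0
    rw [mu_eq_zero n hs (by omega), show Z K n [] = 1 from map_one _]
    exact List.mem_singleton_self _
  | succ M ih =>
    obtain ⟨l, h1, h2, h3⟩ := ih
    have key : ∀ S : Finset (Stk.State (Fin (n + 1))),
        (∀ s ∈ S, Stk.Good N s ∧ Stk.mu s = M + 1) →
        ∃ l' : List (MvPolynomial (Fin (nvar n)) K), HP (treeWeight u) l' ∧ l ⊆ l' ∧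
          l'.length ≤ l.length + cst n N * S.card ∧ ∀ s ∈ S, Z K n s ∈ l' := by
      intro S
      induction S using Finset.induction_on with
      | empty => exact fun _ => ⟨l, h1, List.Subset.refl _, by simp, by simp⟩
      | insert s S hs ihS =>
        intro hS
        obtain ⟨l', k1, k2, k3, k4⟩ := ihS fun t ht => hS t (Finset.mem_insert_of_mem ht)
        obtain ⟨hg, hmu⟩ := hS s (Finset.mem_insert_self ..)
        have h0 : s ≠ [] := by
          rintro rfl
          simp [Stk.mu] at hmu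
        obtain ⟨l'', m1, m2, m3, m4⟩ := one_state K n u hg h0 k1 (by
          intro t ht htm
          exact k2 (h3 t ht (by omega)))
        refine ⟨l'', m1, List.Subset.trans k2 m2, ?_, ?_⟩
        · rw [Finset.card_insert_of_notMem hs, mul_add, mul_one]
          omega
        · intro t ht
          rcases Finset.mem_insert.1 ht with rfl | ht
          · exact m4
          · exact m2 (k4 t ht)
    obtain ⟨l', k1, k2, k3, k4⟩ := key
      ((Stk.goodSet (Fin (n + 1)) N).filter (fun s => Stk.mu s = M + 1)) (by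
        intro s hs
        rw [Finset.mem_filter, Stk.mem_goodSet] at hs
        exact hs)
    refine ⟨l', k1, ?_, ?_⟩
    · have hdisj : ((Stk.goodSet (Fin (n + 1)) N).filter (fun s => Stk.mu s ≤ M + 1)).card =
          ((Stk.goodSet (Fin (n + 1)) N).filter (fun s => Stk.mu s ≤ M)).card +
          ((Stk.goodSet (Fin (n + 1)) N).filter (fun s => Stk.mu s = M + 1)).card := by
        rw [← Finset.card_union_of_disjoint]
        · congr 1
          ext s
          simp only [Finset.mem_filter, Finset.mem_union]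
          constructor
          · rintro ⟨a, b⟩
            rcases Nat.lt_or_ge (Stk.mu s) (M + 1) with h | h
            · exact Or.inl ⟨a, by omega⟩
            · exact Or.inr ⟨a, by omega⟩
          · rintro (⟨a, b⟩ | ⟨a, b⟩)
            · exact ⟨a, by omega⟩
            · exact ⟨a, by omega⟩
        · rw [Finset.disjoint_filter]
          intro s _ h
          omega
      rw [hdisj, mul_add]
      omega
    · intro s hs hm
      rcases Nat.lt_or_ge (Stk.mu s) (M + 1) with h | h
      · exact k2 (h3 s hs (by omega))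
      · exact k4 s (Finset.mem_filter.2 ⟨Stk.mem_goodSet.2 hs, by omega⟩)

theorem all_states (N : ℕ) : ∃ l : List (MvPolynomial (Fin (nvar n)) K), HP (treeWeight u) l ∧
    l.length ≤ 1 + cst n N * (Stk.goodSet (Fin (n + 1)) N).card ∧
    ∀ s, Stk.Good N s → Z K n s ∈ l := by
  classical
  obtain ⟨l, h1, h2, h3⟩ := levels K n u N ((Stk.goodSet (Fin (n + 1)) N).sup Stk.mu)
  refine ⟨l, h1, h2.trans ?_, fun s hs => h3 s hs (Finset.le_sup (Stk.mem_goodSet.2 hs))⟩
  exact Nat.add_le_add_left (Nat.mul_le_mul_left _ (Finset.card_filter_le _ _)) _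

theorem prog : ∃ l : List (MvPolynomial (Fin (nvar n)) K), HP (treeWeight u) l ∧
    l.length ≤ 1 + cst n (n + 1) * (Stk.goodSet (Fin (n + 1)) (n + 1)).card + (n + 2) ∧
    treePoly K n ∈ l := by
  obtain ⟨l, h1, h2, h3⟩ := all_states K n u (n + 1)
  obtain ⟨l', k1, k2, k3, k4⟩ := h1.addAll (u 0) (Finset.Icc 1 (n + 1))
    (fun m => Z K n [((0 : Fin (n + 1)), m)]) (by
      intro m hm
      rw [Finset.mem_Icc] at hm
      exact h3 _ (Stk.good_single _ hm.1 hm.2)) (by
      intro m hm
      have := Z_hom K n u [((0 : Fin (n + 1)), m)]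
      have hW : Stk.W u [((0 : Fin (n + 1)), m)] = u 0 := by simp [Stk.W]
      rwa [hW] at this)
  refine ⟨l', k1, ?_, ?_⟩
  · rw [Nat.card_Icc] at k3
    omega
  · have : treePoly K n = ∑ m ∈ Finset.Icc 1 (n + 1), Z K n [((0 : Fin (n + 1)), m)] := by
      rw [treePoly, Stk.tsum_eq, map_sum]
      rfl
    rw [this]
    exact k4

end main

theorem size_bound (n : ℕ) :
    2 * (1 + cst n (n + 1) * ((n + 1) * (n + 1) + 1) ^ (2 * Nat.log 2 (n + 1) + 2) + (n + 2)) ≤
      (n + 2) ^ (14 * Nat.log 2 (n + 2)) := by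
  set x := n + 2 with hx
  set lam := Nat.log 2 x with hlam
  have hx2 : 2 ≤ x := by omega
  have hlam1 : 1 ≤ lam := Nat.log_pos (by norm_num) hx2
  have hlog : Nat.log 2 (n + 1) ≤ lam := Nat.log_mono_right (by omega)
  have h1 : (n + 1) * (n + 1) + 1 ≤ x ^ 2 := by
    rw [hx]; nlinarith
  have h2 : ((n + 1) * (n + 1) + 1) ^ (2 * Nat.log 2 (n + 1) + 2) ≤ x ^ (8 * lam) := by
    calc ((n + 1) * (n + 1) + 1) ^ (2 * Nat.log 2 (n + 1) + 2)
        ≤ (x ^ 2) ^ (2 * Nat.log 2 (n + 1) + 2) := Nat.pow_le_pow_left h1 _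
      _ = x ^ (2 * (2 * Nat.log 2 (n + 1) + 2)) := by rw [← pow_mul]
      _ ≤ x ^ (8 * lam) := Nat.pow_le_pow_right (by omega) (by omega)
  have h3 : cst n (n + 1) ≤ x ^ 4 := by
    have hmax : max 1 ((n + 1) ^ 2 * (n + 1)) = (n + 1) ^ 3 := by
      rw [← pow_succ]
      exact max_eq_right (Nat.one_le_pow _ _ (by omega))
    rw [cst, hmax]
    have e1 : 2 * (n + 1) ^ 3 + 1 ≤ 2 * x ^ 3 := by
      rw [hx]; nlinarith [Nat.zero_le n, Nat.zero_le (n ^ 2)]
    calc 2 * (n + 1) ^ 3 + 1 ≤ 2 * x ^ 3 := e1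
      _ ≤ x * x ^ 3 := Nat.mul_le_mul_right _ hx2
      _ = x ^ 4 := by ring
  have h4 : cst n (n + 1) * ((n + 1) * (n + 1) + 1) ^ (2 * Nat.log 2 (n + 1) + 2) ≤
      x ^ (12 * lam) := by
    calc cst n (n + 1) * ((n + 1) * (n + 1) + 1) ^ (2 * Nat.log 2 (n + 1) + 2)
        ≤ x ^ 4 * x ^ (8 * lam) := Nat.mul_le_mul h3 h2
      _ = x ^ (4 + 8 * lam) := by rw [← pow_add]
      _ ≤ x ^ (12 * lam) := Nat.pow_le_pow_right (by omega) (by omega)
  have h5 : 1 + x ≤ x ^ (12 * lam) := by
    calc 1 + x ≤ x ^ 2 := by nlinarith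
      _ ≤ x ^ (12 * lam) := Nat.pow_le_pow_right (by omega) (by omega)
  calc 2 * (1 + cst n (n + 1) * ((n + 1) * (n + 1) + 1) ^ (2 * Nat.log 2 (n + 1) + 2) + x)
      ≤ 2 * (x ^ (12 * lam) + x ^ (12 * lam)) := by omega
    _ = 2 * 2 * x ^ (12 * lam) := by ring
    _ ≤ x * x * x ^ (12 * lam) := Nat.mul_le_mul_right _ (Nat.mul_le_mul hx2 hx2)
    _ = x ^ (12 * lam + 2) := by ring
    _ ≤ x ^ (14 * lam) := Nat.pow_le_pow_right (by omega) (by omega)

end Hub

/-- HUB: homogeneous weakly skew circuits of quasipolynomial size, for all gradings. -/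
theorem t_hub : HUBStmt.{u, v} := by
  refine ⟨14, fun K _ n G _ u => ?_⟩
  obtain ⟨l, h1, h2, h3⟩ := Hub.prog K n u
  obtain ⟨D, hD, hc, hs⟩ := t_lsh K (Fin (nvar n)) G (treeWeight u) l (treePoly K n) h1.1 h1.2 h3
  refine ⟨D, hD, hc, ?_⟩
  have hcard := Stk.card_goodSet (Fin (n + 1)) (n + 1)
  rw [Fintype.card_fin] at hcard
  have := Nat.mul_le_mul_left (Hub.cst n (n + 1)) hcard
  have := Hub.size_bound n
  omega

end Pool.EQD
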